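import Pool.Agent.Y192.OG.StE

set_option autoImplicit false

/-!
Derivations of logarithmic type at the places of irreducible polynomials and of weights.
-/

namespace Pool.Agent.Y46.OG

open FF MvPolynomial Pool.Agent.W603.LV Pool.Agent.W602.GT Pool.Agent.TH122.AB
open Pool.Agent.Y192.OG

section

variable {k F K : Type} [Field k] [Field F] [Field K] [Algebra k F] [Algebra k K] [Algebra F K]
  [IsScalarTower k F K] {b : ℕ} {X : Fin b → F}

/-- a derivation of logarithmic type on monomials -/
theorem der_mono (D : Derivation ℤ K K) {x : Fin b → K} {ε : Fin b → K}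
    (hε : ∀ i, D (x i) = ε i * x i) (c : Fin b → ℕ) (s : Finset (Fin b)) :
    D (∏ i ∈ s, x i ^ c i) = (∑ i ∈ s, (c i : K) * ε i) * ∏ i ∈ s, x i ^ c i := by
  classical
  induction s using Finset.induction_on with
  | empty => simp
  | insert i s hi ih =>
    rw [Finset.prod_insert hi, Finset.sum_insert hi, D.leibniz, ih, D.leibniz_pow, hε]
    simp only [smul_eq_mul, nsmul_eq_mul]
    rcases Nat.eq_zero_or_pos (c i) with h | h
    · rw [h]
      simp
    · obtain ⟨n, hn⟩ : ∃ n, c i = n + 1 := ⟨c i - 1, by omega⟩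
      rw [hn, Nat.add_sub_cancel, pow_succ]
      ring

/-- a derivation of logarithmic type on polynomials -/
theorem der_poly (D : Derivation ℤ K K)
    (hk : ∀ c : k, ∃ c' : k, D (algebraMap k K c) = algebraMap k K c')
    (hX : ∀ i, ∃ ε : k, D (algebraMap F K (X i)) = algebraMap k K ε * algebraMap F K (X i))
    (A : MvPolynomial (Fin b) k) : ∃ A' : MvPolynomial (Fin b) k, A'.support ⊆ A.support ∧
      D (algebraMap F K (aeval X A)) = algebraMap F K (aeval X A') := by
  classical
  choose δ hδ using hk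
  choose ε hε using hX
  have hmono : ∀ (c : Fin b →₀ ℕ) (a : k), algebraMap F K (aeval X (monomial c a)) =
      algebraMap k K a * ∏ i, algebraMap F K (X i) ^ c i := by
    intro c a
    rw [aeval_monomial, map_mul, ← IsScalarTower.algebraMap_apply, Finsupp.prod_fintype _ _
      (fun i => pow_zero _), map_prod]
    congr 1
    exact Finset.prod_congr rfl fun i _ => map_pow _ _ _
  have h1 : ∀ (c : Fin b →₀ ℕ) (a : k), D (algebraMap F K (aeval X (monomial c a))) =
      algebraMap F K (aeval X (monomial c (δ a + a * ∑ i, (c i : k) * ε i))) := by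
    intro c a
    rw [hmono, hmono, D.leibniz, der_mono D (ε := fun i => algebraMap k K (ε i)) hε (fun i => c i),
      hδ]
    simp only [smul_eq_mul, map_add, map_mul, map_sum, map_natCast]
    ring
  refine ⟨∑ c ∈ A.support, monomial c (δ (A.coeff c) + A.coeff c * ∑ i, (c i : k) * ε i), ?_, ?_⟩
  · intro c hc
    rw [mem_support_iff, coeff_sum] at hc
    by_contra h
    apply hc
    apply Finset.sum_eq_zero
    intro c' hc'
    rw [coeff_monomial, if_neg]
    rintro rfl
    exact h hc'
  · conv_lhs => rw [A.as_sum, map_sum, map_sum, map_sum]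
    rw [map_sum, map_sum]
    exact Finset.sum_congr rfl fun c _ => h1 c _

end

theorem t_deradic : St_deradic := by
  intro k F K _ _ _ _ _ _ _ b X hG p hp q hq P e hO D hk hX g hg
  by_cases hg0 : g = 0
  · rw [hg0, map_zero, map_zero]
    exact P.reg_zero
  obtain ⟨P0, Q0, hQ0, hz1⟩ := hG.gen g
  obtain ⟨A, B, hB, hcop, hz2⟩ : ∃ A B : MvPolynomial (Fin b) k, B ≠ 0 ∧ IsRelPrime A B ∧
      g = aeval X A / aeval X B := by
    obtain ⟨a', b', c', hcop, ha, hb⟩ :=
      UniqueFactorizationMonoid.exists_reduced_factors' P0 Q0 hQ0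
    refine ⟨a', b', ?_, hcop, ?_⟩
    · rintro rfl
      apply hQ0
      rw [← hb, mul_zero]
    · have hc' : c' ≠ 0 := by
        rintro rfl
        apply hQ0
        rw [← hb, zero_mul]
      have hcX := hG.ne hc'
      rw [hz1, ← ha, ← hb, map_mul, map_mul, mul_div_mul_left _ _ hcX]
  have hA : A ≠ 0 := by
    rintro rfl
    apply hg0
    rw [hz2, map_zero, zero_div]
  have hreg : ∀ C : MvPolynomial (Fin b) k, P.Reg (algebraMap F K (aeval X C)) := by
    intro C
    by_cases hC : C = 0
    · left
      rw [hC, map_zero, map_zero]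
    · right
      rw [hO.2]
      have := (hq.2 C hC).1
      positivity
  have hpB : ¬ p ∣ B := by
    intro hpB
    have hpA : ¬ p ∣ A := fun hpA => hp.not_isUnit (hcop hpA hpB)
    have h2 := (hq.2 A hA).2.2 hpA
    have h3 : 0 < q.ord (aeval X B) := by
      have h4 := hq.2 B hB
      rcases lt_or_eq_of_le h4.1 with h5 | h5
      · exact h5
      · exact absurd hpB (h4.2.1 h5.symm)
    rw [q.reg_iff hg0, hz2, q.ord_div (hG.ne hA) (hG.ne hB), h2] at hg
    omega
  have hB0 : P.ord (algebraMap F K (aeval X B)) = 0 := by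
    rw [hO.2, (hq.2 B hB).2.2 hpB, mul_zero]
  obtain ⟨A', -, hA'⟩ := der_poly D hk hX A
  obtain ⟨B', -, hB'⟩ := der_poly D hk hX B
  have hBK : algebraMap F K (aeval X B) ≠ 0 := (map_ne_zero _).2 (hG.ne hB)
  rw [hz2, map_div₀, D.leibniz_div, hA', hB', smul_eq_mul, smul_eq_mul, smul_eq_mul]
  apply P.reg_mul
  · right
    rw [P.ord_pow, P.ord_inv, hB0, neg_zero, mul_zero]
  · rw [sub_eq_add_neg]
    exact P.reg_add (P.reg_mul (hreg _) (hreg _)) (P.reg_neg (P.reg_mul (hreg _) (hreg _)))

theorem t_dertor : St_dertor := by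
  intro k F K _ _ _ _ _ _ _ b X hG w q hq P e hO D hk hX g
  have key : ∀ A : MvPolynomial (Fin b) k, A ≠ 0 →
      P.Reg (D (algebraMap F K (aeval X A)) / algebraMap F K (aeval X A)) := by
    intro A hA
    obtain ⟨A', hs, hA'⟩ := der_poly D hk hX A
    rw [hA']
    by_cases h0 : A' = 0
    · left
      rw [h0, map_zero, map_zero, zero_div]
    · right
      rw [P.ord_div ((map_ne_zero _).2 (hG.ne h0)) ((map_ne_zero _).2 (hG.ne hA)), hO.2, hO.2]
      obtain ⟨c, hc, hc'⟩ := (hq A' h0).2
      have h1 := (hq A hA).1 c (hs hc)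
      rw [hc', ← mul_sub]
      exact mul_nonneg (Int.natCast_nonneg e) (sub_nonneg.2 h1)
  by_cases hg0 : g = 0
  · left
    rw [hg0, map_zero, map_zero, zero_div]
  obtain ⟨A, B, hB, hz⟩ := hG.gen g
  have hA : A ≠ 0 := by
    rintro rfl
    apply hg0
    rw [hz, map_zero, zero_div]
  have hAK : algebraMap F K (aeval X A) ≠ 0 := (map_ne_zero _).2 (hG.ne hA)
  have hBK : algebraMap F K (aeval X B) ≠ 0 := (map_ne_zero _).2 (hG.ne hB)
  have h1 : D (algebraMap F K g) / algebraMap F K g =
      D (algebraMap F K (aeval X A)) / algebraMap F K (aeval X A) +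
      -(D (algebraMap F K (aeval X B)) / algebraMap F K (aeval X B)) := by
    rw [hz, map_div₀, D.leibniz_div, smul_eq_mul, smul_eq_mul, smul_eq_mul]
    field_simp
    ring
  rw [h1]
  exact P.reg_add (key A hA) (P.reg_neg (key B hB))

end Pool.Agent.Y46.OG
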